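import Pool.Agent.E8helper61.EF.Stm

/-!
# Shifting for the union property (project EF, part SHIFT)
-/

set_option autoImplicit false

open Finset

namespace Pool.Agent.E8helper42.EF

open Pool.Agent.E8helper61.EF

variable {n : ℕ}

/-- the shift of one set -/
def g (B : Finset (Finset (Fin n))) (i j : Fin n) (C : Finset (Fin n)) : Finset (Fin n) :=
  if j ∈ C ∧ i ∉ C ∧ insert i (C.erase j) ∉ B then insert i (C.erase j) else C

/-- the weight -/
def w (C : Finset (Fin n)) : ℕ := ∑ x ∈ C, x.val

lemma w_lt {C : Finset (Fin n)} {i j : Fin n} (hij : i < j) (hj : j ∈ C) (hi : i ∉ C) :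
    w (insert i (C.erase j)) < w C := by
  unfold w
  rw [sum_insert (fun h => hi (mem_of_mem_erase h)), ← sum_erase_add C (fun x => x.val) hj]
  have : i.val < j.val := hij
  omega

lemma back {C : Finset (Fin n)} {i j : Fin n} (hij : i < j) (hj : j ∈ C) (hi : i ∉ C) :
    insert j ((insert i (C.erase j)).erase i) = C := by
  rw [erase_insert (fun h => hi (mem_of_mem_erase h)), insert_erase hj]

lemma g_inj {B : Finset (Finset (Fin n))} {i j : Fin n} (hij : i < j) :
    Set.InjOn (g B i j) B := by
  intro C hC D hD h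
  unfold g at h
  split_ifs at h with h1 h2 h2
  · rw [← back hij h1.1 h1.2.1, ← back hij h2.1 h2.2.1, h]
  · exact absurd (by rw [h]; exact hD) h1.2.2
  · exact absurd (by rw [← h]; exact hC) h2.2.2
  · exact h

/-- the members of the shifted family -/
lemma mem_shift {B : Finset (Finset (Fin n))} {i j : Fin n} (hij : i < j) {X : Finset (Fin n)}
    (hX : X ∈ B.image (g B i j)) :
    (X ∈ B ∧ (j ∈ X → i ∈ X ∨ insert i (X.erase j) ∈ B)) ∨
      (i ∈ X ∧ j ∉ X ∧ insert j (X.erase i) ∈ B) := by
  obtain ⟨C, hC, rfl⟩ := mem_image.1 hX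
  unfold g
  split_ifs with h1
  · right
    refine ⟨mem_insert_self _ _, ?_, ?_⟩
    · intro h2
      rcases mem_insert.1 h2 with h3 | h3
      · exact hij.ne' h3
      · exact notMem_erase _ _ h3
    · rw [back hij h1.1 h1.2.1]
      exact hC
  · left
    refine ⟨hC, fun hj => ?_⟩
    by_contra h2
    push Not at h2
    exact h1 ⟨hj, h2.1, h2.2⟩

lemma ku_shift {B : Finset (Finset (Fin n))} {i j : Fin n} (hij : i < j) {k d : ℕ}
    (hB : KU k d B) : KU k d (B.image (g B i j)) := by
  intro f hf
  have hf' := fun l => mem_shift hij (hf l)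
  by_cases hall : ∀ l, f l ∈ B
  · exact hB f hall
  push Not at hall
  obtain ⟨l0, hl0⟩ := hall
  have hP2 : i ∈ f l0 ∧ j ∉ f l0 ∧ insert j ((f l0).erase i) ∈ B := by
    rcases hf' l0 with h1 | h1
    · exact absurd h1.1 hl0
    · exact h1
  set h : Fin k → Finset (Fin n) := fun l => if f l ∈ B then f l else insert j ((f l).erase i)
    with hh
  have hhB : ∀ l, h l ∈ B := by
    intro l
    simp only [hh]
    split_ifs with h1
    · exact h1
    · rcases hf' l with h2 | h2
      · exact absurd h2.1 h1
      · exact h2.2.2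
  have hhx : ∀ l x, x ∈ f l → x ≠ i → x ∈ h l := by
    intro l x hx hxi
    simp only [hh]
    split_ifs
    · exact hx
    · exact mem_insert_of_mem (mem_erase.2 ⟨hxi, hx⟩)
  have hl0j : j ∈ h l0 := by
    simp only [hh, if_neg hl0]
    exact mem_insert_self _ _
  by_cases hj : ∃ m, j ∈ f m
  · obtain ⟨m, hm⟩ := hj
    have hm1 : f m ∈ B ∧ (i ∈ f m ∨ insert i ((f m).erase j) ∈ B) := by
      rcases hf' m with h1 | h1
      · exact ⟨h1.1, h1.2 hm⟩
      · exact absurd hm h1.2.1
    have hml0 : l0 ≠ m := by
      rintro rfl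
      exact hl0 hm1.1
    set h' : Fin k → Finset (Fin n) := fun l =>
      if l = m then (if i ∈ f m then f m else insert i ((f m).erase j)) else h l with hh'
    have hB' : ∀ l, h' l ∈ B := by
      intro l
      simp only [hh']
      split_ifs with h1 h2
      · exact hm1.1
      · exact hm1.2.resolve_left h2
      · exact hhB l
    have him : i ∈ h' m := by
      simp only [hh', if_true]
      split_ifs with h2
      · exact h2
      · exact mem_insert_self _ _
    have hsub : univ.biUnion f ⊆ univ.biUnion h' := by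
      intro x hx
      obtain ⟨l, _, hx⟩ := mem_biUnion.1 hx
      rw [mem_biUnion]
      by_cases hxi : x = i
      · exact ⟨m, mem_univ _, by rw [hxi]; exact him⟩
      by_cases hxj : x = j
      · refine ⟨l0, mem_univ _, ?_⟩
        simp only [hh', if_neg hml0]
        rw [hxj]
        exact hl0j
      refine ⟨l, mem_univ _, ?_⟩
      simp only [hh']
      split_ifs with h1 h2
      · rw [← h1]; exact hx
      · rw [← h1]
        exact mem_insert_of_mem (mem_erase.2 ⟨hxj, hx⟩)
      · exact hhx l x hx hxi
    exact (card_le_card hsub).trans (hB h' hB')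
  · push Not at hj
    set U := univ.biUnion f with hU
    have hjU : j ∉ U := by
      intro h1
      obtain ⟨l, _, h2⟩ := mem_biUnion.1 h1
      exact hj l h2
    have hiU : i ∈ U := mem_biUnion.2 ⟨l0, mem_univ _, hP2.1⟩
    have hsub : insert j (U.erase i) ⊆ univ.biUnion h := by
      intro x hx
      rw [mem_biUnion]
      rcases mem_insert.1 hx with h1 | h1
      · exact ⟨l0, mem_univ _, by rw [h1]; exact hl0j⟩
      · obtain ⟨h2, h3⟩ := mem_erase.1 h1
        obtain ⟨l, _, h4⟩ := mem_biUnion.1 h3
        exact ⟨l, mem_univ _, hhx l x h4 h2⟩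
    have hc : (insert j (U.erase i)).card = U.card := by
      rw [card_insert_of_notMem (fun h1 => hjU (mem_of_mem_erase h1)), card_erase_of_mem hiU]
      have := card_pos.2 ⟨i, hiU⟩
      omega
    rw [← hc]
    exact (card_le_card hsub).trans (hB h hhB)

lemma supp_shift {B : Finset (Finset (Fin n))} {i j : Fin n} (hij : i < j) {M : ℕ}
    (hB : Supp M B) : Supp M (B.image (g B i j)) := by
  intro X hX x hx
  rcases mem_shift hij hX with h1 | h1
  · exact hB X h1.1 x hx
  · by_cases hxi : x = i
    · have h2 := hB _ h1.2.2 j (mem_insert_self _ _)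
      rw [hxi]
      have : i.val < j.val := hij
      omega
    · exact hB _ h1.2.2 x (mem_insert_of_mem (mem_erase.2 ⟨hxi, hx⟩))

theorem shift : ShiftStatement := by
  classical
  intro n k d A _ hA
  set S : Finset (Finset (Finset (Fin n))) := univ.filter
    (fun B => A.card ≤ B.card ∧ KU k d B ∧ ∀ M, Supp M A → Supp M B) with hS
  have hAS : A ∈ S := by
    rw [hS, mem_filter]
    exact ⟨mem_univ _, le_refl _, hA, fun _ h => h⟩
  obtain ⟨B1, hB1, hmax⟩ := exists_max_image S card ⟨A, hAS⟩
  obtain ⟨B, hB, hmin⟩ := exists_min_image (S.filter (fun B => B.card = B1.card))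
    (fun B => ∑ C ∈ B, w C) ⟨B1, mem_filter.2 ⟨hB1, rfl⟩⟩
  rw [mem_filter] at hB
  obtain ⟨hBS, hBc⟩ := hB
  have hBS' := hBS
  rw [hS, mem_filter] at hBS'
  obtain ⟨_, hc, hKU, hsupp⟩ := hBS'
  refine ⟨B, hc, hKU, ?_, ?_, hsupp⟩
  · intro D hD C hCD
    by_contra hC
    have h1 : insert C B ∈ S := by
      rw [hS, mem_filter]
      refine ⟨mem_univ _, ?_, ?_, ?_⟩
      · rw [card_insert_of_notMem hC]; omega
      · intro f hf
        have h2 : univ.biUnion f ⊆ univ.biUnion (fun l => if f l ∈ B then f l else D) := by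
          intro x hx
          obtain ⟨l, _, hx⟩ := mem_biUnion.1 hx
          rw [mem_biUnion]
          refine ⟨l, mem_univ _, ?_⟩
          split_ifs with h3
          · exact hx
          · rcases mem_insert.1 (hf l) with h4 | h4
            · rw [h4] at hx; exact hCD hx
            · exact absurd h4 h3
        refine (card_le_card h2).trans (hKU _ fun l => ?_)
        split_ifs with h3
        · exact h3
        · exact hD
      · intro M hM X hX x hx
        rcases mem_insert.1 hX with h4 | h4
        · rw [h4] at hx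
          exact hsupp M hM D hD x (hCD hx)
        · exact hsupp M hM X h4 x hx
    have h2 := hmax _ h1
    rw [card_insert_of_notMem hC] at h2
    omega
  · intro C hC i j hij hj hi
    by_contra hcon
    have hcard : (B.image (g B i j)).card = B.card := card_image_of_injOn (g_inj hij)
    have h1 : B.image (g B i j) ∈ S.filter (fun B => B.card = B1.card) := by
      rw [mem_filter, hS, mem_filter]
      refine ⟨⟨mem_univ _, ?_, ku_shift hij hKU, fun M hM => supp_shift hij (hsupp M hM)⟩, ?_⟩
      · rw [hcard]; exact hc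
      · rw [hcard]; exact hBc
    have h2 := hmin _ h1
    rw [sum_image (g_inj hij)] at h2
    have h3 : ∑ C ∈ B, w (g B i j C) < ∑ C ∈ B, w C := by
      refine sum_lt_sum (fun D _ => ?_) ⟨C, hC, ?_⟩
      · unfold g
        split_ifs with h4
        · exact (w_lt hij h4.1 h4.2.1).le
        · exact le_refl _
      · unfold g
        rw [if_pos ⟨hj, hi, hcon⟩]
        exact w_lt hij hj hi
    omega

end Pool.Agent.E8helper42.EF
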